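import Pool.Agent.H4.TA.Targets

/-!
# Row LIU: a limit for the upper bound
-/

set_option autoImplicit false

open Finset Pool.Agent.H43.TC Pool.Agent.H4.TA

namespace Pool.Agent.H88.TAS

theorem pf_LIU : T_LIU := by
  intro ε V hε hV
  obtain ⟨η, hη0, hη1, hη2⟩ : ∃ η : ℝ, 0 < η ∧ η ≤ 1 / 4 ∧ η ≤ ε / 4 :=
    ⟨min (ε / 4) (1 / 4), by positivity, min_le_right _ _, min_le_left _ _⟩
  refine ⟨η / 4, max (max (8 * V / η) (16 / η)) (max V 1), by positivity, by linarith,
    (le_max_left V 1).trans (le_max_right _ _), (le_max_right V 1).trans (le_max_right _ _), ?_⟩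
  intro E u u' n hE hu hEu h1 h2 h3
  have hE1 : 8 * V / η ≤ E := ((le_max_left _ _).trans (le_max_left _ _)).trans hE
  have hE2 : 16 / η ≤ E := ((le_max_right _ _).trans (le_max_left _ _)).trans hE
  have hE3 : 1 ≤ E := ((le_max_right V 1).trans (le_max_right _ _)).trans hE
  have hE0 : 0 < E := by linarith
  have hu'0 : 0 ≤ u' := le_trans (mul_nonneg (by linarith) hu) h1
  -- `u ≤ η / 8`
  have hu8 : u ≤ η / 8 := by
    have h8 : 8 * V ≤ E * η := by
      rw [div_le_iff₀ hη0] at hE1
      linarith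
    by_contra hc
    push Not at hc
    have : E * (η / 8) < E * u := mul_lt_mul_of_pos_left hc hE0
    nlinarith
  have hu'8 : u' ≤ η / 8 := h2.trans hu8
  have h16 : 16 ≤ E * η := by
    rw [div_le_iff₀ hη0] at hE2
    linarith
  set v : ℝ := E * u with hv
  have hv0 : 0 ≤ v := mul_nonneg hE0.le hu
  -- the exponent
  have hn0 : (0 : ℝ) ≤ n := Nat.cast_nonneg n
  have hnE : (1 - η / 4 - η / 16) * E ≤ n := by nlinarith
  have hexp : (1 - η) * v ≤ n * (u' - u' ^ 2) := by
    have ha : (1 - η / 4) * (1 - η / 8) * u ≤ u' - u' ^ 2 := by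
      have h5 : u' * (1 - η / 8) ≤ u' - u' ^ 2 := by nlinarith
      have h6 : (1 - η / 4) * u * (1 - η / 8) ≤ u' * (1 - η / 8) :=
        mul_le_mul_of_nonneg_right h1 (by linarith)
      nlinarith
    have hb : 0 ≤ (1 - η / 4) * (1 - η / 8) * u :=
      mul_nonneg (mul_nonneg (by linarith) (by linarith)) hu
    calc (1 - η) * v ≤ ((1 - η / 4 - η / 16) * ((1 - η / 4) * (1 - η / 8))) * v := by
          apply mul_le_mul_of_nonneg_right _ hv0
          nlinarith [hη0, hη1, mul_pos hη0 hη0, mul_nonneg hη0.le (sub_nonneg.2 hη1),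
            mul_nonneg (mul_pos hη0 hη0).le (sub_nonneg.2 hη1)]
      _ = ((1 - η / 4 - η / 16) * E) * ((1 - η / 4) * (1 - η / 8) * u) := by
          rw [hv]
          ring
      _ ≤ n * ((1 - η / 4) * (1 - η / 8) * u) := mul_le_mul_of_nonneg_right hnE hb
      _ ≤ n * (u' - u' ^ 2) := mul_le_mul_of_nonneg_left ha hn0
  have hlog : Real.exp (u' - u' ^ 2) ≤ 1 + u' := by
    have hq : u' - u' ^ 2 ≤ u' / (1 + u') := by
      rw [le_div_iff₀ (by linarith)]
      nlinarith [pow_nonneg hu'0 3]
    have hq2 : u' / (1 + u') ≤ Real.log (1 + u') := by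
      have h7 := Real.one_sub_inv_le_log_of_pos (show 0 < 1 + u' by linarith)
      have h8 : 1 - (1 + u')⁻¹ = u' / (1 + u') := by
        field_simp
        ring
      linarith
    calc Real.exp (u' - u' ^ 2) ≤ Real.exp (Real.log (1 + u')) :=
          Real.exp_le_exp.2 (hq.trans hq2)
      _ = 1 + u' := Real.exp_log (by linarith)
  have hmain : (1 + u')⁻¹ ^ n ≤ Real.exp (-((1 - η) * v)) := by
    have h9 : (1 + u')⁻¹ ≤ Real.exp (-(u' - u' ^ 2)) := by
      rw [Real.exp_neg]
      exact inv_anti₀ (Real.exp_pos _) hlog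
    calc (1 + u')⁻¹ ^ n ≤ Real.exp (-(u' - u' ^ 2)) ^ n :=
          pow_le_pow_left₀ (by positivity) h9 n
      _ = Real.exp (n * (-(u' - u' ^ 2))) := by rw [Real.exp_nat_mul]
      _ ≤ Real.exp (-((1 - η) * v)) := Real.exp_le_exp.2 (by linarith)
  -- comparison of the two exponentials
  have hcomp : Real.exp (-((1 - η) * v)) ≤ Real.exp (-v) + ε := by
    have h10 : Real.exp (-((1 - η) * v)) * (1 - η * v) ≤ Real.exp (-v) := by
      have h11 : 1 - η * v ≤ Real.exp (-(η * v)) := by
        have := Real.add_one_le_exp (-(η * v))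
        linarith
      calc Real.exp (-((1 - η) * v)) * (1 - η * v) ≤
            Real.exp (-((1 - η) * v)) * Real.exp (-(η * v)) :=
            mul_le_mul_of_nonneg_left h11 (Real.exp_pos _).le
        _ = Real.exp (-v) := by
            rw [← Real.exp_add]
            congr 1
            ring
    have h12 : Real.exp (-((1 - η) * v)) * ((1 - η) * v) ≤ 1 := by
      have h13 : (1 - η) * v ≤ Real.exp ((1 - η) * v) := by
        have := Real.add_one_le_exp ((1 - η) * v)
        linarith
      calc Real.exp (-((1 - η) * v)) * ((1 - η) * v) ≤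
            Real.exp (-((1 - η) * v)) * Real.exp ((1 - η) * v) :=
            mul_le_mul_of_nonneg_left h13 (Real.exp_pos _).le
        _ = 1 := by
            rw [← Real.exp_add]
            simp
    have h14 : Real.exp (-((1 - η) * v)) * (η * v) ≤ 4 * η / 3 := by
      have h15 : 0 ≤ Real.exp (-((1 - η) * v)) * v := mul_nonneg (Real.exp_pos _).le hv0
      nlinarith
    nlinarith
  exact hmain.trans hcomp

end Pool.Agent.H88.TAS
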