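import Pool.Agent.H4.TA.Targets

/-!
# Row MNT: monotonicity in the time, and the inequality at the corner for finite tori
-/

set_option autoImplicit false

open Finset Pool.Agent.H43.TC Pool.Agent.H4.TA

namespace Pool.Agent.H88.TAS

lemma total_succ_le {k n : ℕ} [NeZero n] (c : Tor k n → Bool) (b : Bool) (m : ℕ) :
    total c b (m + 1) ≤ 2 * k * total c b m := by
  unfold total
  have h1 : ∀ x : Tor k n, walks e c b (m + 1) x ≤
      ∑ i : Fin k, (walks e c b m (x + e i) + walks e c b m (x - e i)) := by
    intro x
    simp only [walks]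
    split_ifs
    · exact le_rfl
    · exact Nat.zero_le _
  refine (sum_le_sum fun x _ => h1 x).trans ?_
  rw [sum_comm]
  have h2 : ∀ i : Fin k, ∑ x : Tor k n, (walks e c b m (x + e i) + walks e c b m (x - e i)) =
      2 * ∑ x, walks e c b m x := by
    intro i
    rw [sum_add_distrib]
    have h3 : ∑ x : Tor k n, walks e c b m (x + e i) = ∑ x, walks e c b m x :=
      Equiv.sum_comp (Equiv.addRight (e i)) (walks e c b m)
    have h4 : ∑ x : Tor k n, walks e c b m (x - e i) = ∑ x, walks e c b m x :=
      Equiv.sum_comp (Equiv.subRight (e i)) (walks e c b m)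
    rw [h3, h4]
    ring
  rw [sum_congr rfl fun i _ => h2 i]
  simp only [sum_const, card_univ, Fintype.card_fin, smul_eq_mul]
  exact le_of_eq (by ring)

lemma stay_succ_le {k n : ℕ} [NeZero n] (c : Tor k n → Bool) (b : Bool) (m : ℕ) (hk : 0 < k) :
    stay c b (m + 1) ≤ stay c b m := by
  unfold stay
  rcases Nat.eq_zero_or_pos (size c b) with h0 | h0
  · simp [h0]
  · have hs : (0 : ℝ) < size c b := by exact_mod_cast h0
    have hk' : (0 : ℝ) < k := by exact_mod_cast hk
    have h1 : (total c b (m + 1) : ℝ) ≤ 2 * k * total c b m := by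
      exact_mod_cast total_succ_le c b m
    rw [div_le_div_iff₀ (by positivity) (by positivity)]
    have h2 : (0 : ℝ) ≤ (size c b : ℝ) * (2 * k : ℝ) ^ m := by positivity
    calc (total c b (m + 1) : ℝ) * ((size c b : ℝ) * (2 * k : ℝ) ^ m) ≤
          (2 * k * total c b m) * ((size c b : ℝ) * (2 * k : ℝ) ^ m) :=
          mul_le_mul_of_nonneg_right h1 h2
      _ = (total c b m : ℝ) * ((size c b : ℝ) * (2 * k : ℝ) ^ (m + 1)) := by
          rw [pow_succ]
          ring

theorem pf_MNT (hDFS : T_DFS) (hDFN : T_DFN) : T_MNT := by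
  intro k n _ c hk
  refine ⟨?_, ?_⟩
  · intro b m t hmt
    exact antitone_nat_of_succ_le (fun j => stay_succ_le c b j hk) hmt
  · intro m hm hs hbal
    have h1 := hDFS k n m c hk hm
    have h2 : 0 ≤ ∑ x, (if c x = true then df c m x else 0) := by
      refine sum_nonneg fun x _ => ?_
      split_ifs with hx
      · exact hDFN k n m c x hk hm hx
      · exact le_rfl
    rw [h1] at h2
    have hbal : size c true = size c false := hbal
    unfold stay
    rw [← hbal] at h2 ⊢
    have hs' : (0 : ℝ) < size c true := by exact_mod_cast hs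
    have hk' : (0 : ℝ) < k := by exact_mod_cast hk
    set P : ℝ := (2 * k : ℝ) ^ m with hP
    have hP0 : 0 < P := by positivity
    set s : ℝ := (size c true : ℝ) with hsdef
    have e1 : 1 - (total c false m : ℝ) / (s * P) = (P * s - total c false m) / (s * P) := by
      field_simp
    have e2 : 1 - (total c true m : ℝ) / (s * P) = (P * s - total c true m) / (s * P) := by
      field_simp
    rw [e1, e2, ← mul_div_assoc]
    exact div_le_div_of_nonneg_right (by linarith) (by positivity)

end Pool.Agent.H88.TAS
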